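import Pool.Agent.H73.TateB.Words

/-!
# The chain of moves
-/

namespace Pool.Agent.H73.TateB


section
variable {K ι : Type*} [Field K]
variable {α : ι → K} {ω : ι → ι → K} {q : ℕ} {s : K}
  {A : ∀ n, Submodule K (Tens K ι n)} {W : K → Prop} {e e' : ι}

theorem good_zero (h : Hyp α ω q s A W e e') : Good A (0 : Multiset ι) := by
  have h1 : Good A ({e, e'} : Multiset ι) := h.good2 h.te h.te' (by
    rw [← sq, h.hs]; exact Sim.refl _)
  have h2 : ({e, e'} : Multiset ι) = e ::ₘ e' ::ₘ 0 := rfl
  rw [h2] at h1
  exact h1.contract h.closed h.ee'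

theorem wgood_zero (h : Hyp α ω q s A W e e') : WGood α A (0 : Multiset K) := by
  intro t ht
  rw [Multiset.rel_zero_left] at ht
  rw [ht]
  exact good_zero h

theorem sim' {x y : K} {w : Multiset K} (hxy : Sim x y) (h1 : WGood α A ({x} + w)) :
    WGood α A ({y} + w) := by
  rw [Multiset.singleton_add] at h1 ⊢
  exact h1.sim hxy

theorem split' (h : Hyp α ω q s A W e e') {x y z : K} (hz : W z) {w : Multiset K}
    (hxy : Sim (x * y) (z * s)) (h1 : WGood α A ({z} + {s} + w)) :
    WGood α A ({x} + {y} + w) := by
  rw [add_assoc, Multiset.singleton_add, Multiset.singleton_add] at h1 ⊢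
  exact h1.split h hz hxy

theorem merge' (h : Hyp α ω q s A W e e') {x y z : K} (hx : W x) (hy : W y)
    {w : Multiset K} (hxy : Sim (x * y) (z * s)) (h1 : WGood α A ({x} + {y} + w)) :
    WGood α A ({z} + {s} + w) := by
  rw [add_assoc, Multiset.singleton_add, Multiset.singleton_add] at h1 ⊢
  exact h1.merge h hx hy hxy

theorem removes (h : Hyp α ω q s A W e e') (n : ℕ) {w : Multiset K}
    (h1 : WGood α A ((2 * n) • {s} + w)) : WGood α A w := by
  induction n with
  | zero => simpa using h1
  | succ n ih =>
    apply ih
    apply WGood.remove h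
    rw [← Multiset.singleton_add, ← Multiset.singleton_add]
    have : (2 * (n + 1)) • ({s} : Multiset K) + w = {s} + ({s} + ((2 * n) • {s} + w)) := by
      rw [Nat.mul_succ, add_smul, two_smul]; abel
    rwa [this] at h1

theorem inserts (h : Hyp α ω q s A W e e') (n : ℕ) : WGood α A ((2 * n) • {s}) := by
  induction n with
  | zero => simpa using wgood_zero h
  | succ n ih =>
    have h2 := WGood.insert h ih
    rw [← Multiset.singleton_add, ← Multiset.singleton_add] at h2
    have : (2 * (n + 1)) • ({s} : Multiset K) = {s} + ({s} + ((2 * n) • {s})) := by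
      rw [Nat.mul_succ, add_smul, two_smul]; abel
    rwa [this]

/-- the data of the chain: `b S` is an `N`-th root of `S.prod * s ^ (N - card S)` -/
structure Roots (N : ℕ) (s : K) (W : K → Prop) (b : Multiset K → K) : Prop where
  hN : 0 < N
  pow : ∀ S : Multiset K, b S ^ N = S.prod * s ^ (N - Multiset.card S)
  weil : ∀ S : Multiset K, (∀ a ∈ S, W a) → Multiset.card S ≤ N → W (b S)

variable {N : ℕ} {b : Multiset K → K}

theorem Roots.zero (hb : Roots N s W b) : Sim (b 0) s := by
  refine ⟨N, hb.hN, ?_⟩
  rw [hb.pow]
  simp

theorem insertGroup (h : Hyp α ω q s A W e e') (hb : Roots N s W b) (S : Multiset K)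
    (hS : ∀ a ∈ S, W a) (hc : Multiset.card S ≤ N) (t : Multiset K)
    (h1 : WGood α A ({b S} + (Multiset.card S) • {s} + t)) :
    WGood α A ({s} + S.map (fun a => b {a}) + t) := by
  induction S using Multiset.induction_on generalizing t with
  | empty =>
    simp only [Multiset.card_zero, zero_smul, add_zero, Multiset.map_zero] at h1 ⊢
    exact sim' hb.zero h1
  | cons a S ih =>
    rw [Multiset.card_cons] at h1 hc
    have hS' : ∀ x ∈ S, W x := fun x hx => hS x (Multiset.mem_cons_of_mem hx)
    have e1 : ({b (a ::ₘ S)} : Multiset K) + (Multiset.card S + 1) • {s} + t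
        = {b (a ::ₘ S)} + {s} + (Multiset.card S • {s} + t) := by
      rw [succ_nsmul]; abel
    rw [e1] at h1
    have h2 := split' (x := b S) (y := b {a}) h (hb.weil (a ::ₘ S) hS (by
      rw [Multiset.card_cons]; exact hc)) (by
        refine Sim.of_pow hb.hN ?_
        rw [mul_pow, mul_pow, hb.pow, hb.pow, hb.pow, Multiset.card_singleton,
          Multiset.prod_singleton, Multiset.prod_cons, Multiset.card_cons]
        have e2 : S.prod * s ^ (N - Multiset.card S) * (a * s ^ (N - 1))
            = a * S.prod * s ^ ((N - Multiset.card S) + (N - 1)) := by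
          rw [pow_add]; ring
        have e3 : a * S.prod * s ^ (N - (Multiset.card S + 1)) * s ^ N
            = a * S.prod * s ^ ((N - (Multiset.card S + 1)) + N) := by
          rw [pow_add]; ring
        rw [e2, e3]
        have e4 : (N - Multiset.card S) + (N - 1) = (N - (Multiset.card S + 1)) + N := by omega
        rw [e4]
        exact Sim.refl _) h1
    have e5 : ({b S} : Multiset K) + {b {a}} + (Multiset.card S • {s} + t)
        = {b S} + Multiset.card S • {s} + ({b {a}} + t) := by abel
    rw [e5] at h2
    have h3 := ih hS' (by omega) _ h2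
    have e6 : ({s} : Multiset K) + Multiset.map (fun a => b {a}) S + ({b {a}} + t)
        = {s} + Multiset.map (fun a => b {a}) (a ::ₘ S) + t := by
      rw [Multiset.map_cons, ← Multiset.singleton_add]; abel
    rwa [e6] at h3

theorem insertN (h : Hyp α ω q s A W e e') (hb : Roots N s W b) (S : Multiset K)
    (hS : ∀ a ∈ S, W a) (hc : Multiset.card S ≤ N) (hbS : Sim (b S) s) (n : ℕ) (t : Multiset K)
    (h1 : WGood α A ((n * Multiset.card S + 1) • {s} + t)) :
    WGood α A ({s} + n • S.map (fun a => b {a}) + t) := by
  induction n generalizing t with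
  | zero => simpa using h1
  | succ n ih =>
    have e1 : ((n + 1) * Multiset.card S + 1) • ({s} : Multiset K) + t
        = {s} + (Multiset.card S • {s} + ((n * Multiset.card S) • {s} + t)) := by
      rw [add_smul, add_mul, add_smul, one_smul, one_mul]; abel
    rw [e1] at h1
    have h2 := sim' hbS.symm h1
    rw [← add_assoc] at h2
    have h3 := insertGroup h hb S hS hc _ h2
    have e2 : ({s} : Multiset K) + Multiset.map (fun a => b {a}) S
          + ((n * Multiset.card S) • {s} + t)
        = (n * Multiset.card S + 1) • {s} + (Multiset.map (fun a => b {a}) S + t) := by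
      rw [add_smul, one_smul]; abel
    rw [e2] at h3
    have h4 := ih _ h3
    have e3 : ({s} : Multiset K) + n • Multiset.map (fun a => b {a}) S
          + (Multiset.map (fun a => b {a}) S + t)
        = {s} + (n + 1) • Multiset.map (fun a => b {a}) S + t := by
      rw [succ_nsmul]; abel
    rwa [e3] at h4

theorem mergeOne (h : Hyp α ω q s A W e e') (hb : Roots N s W b) (a : K) (ha : W a) (n : ℕ)
    (hn : n ≤ N) (t : Multiset K)
    (h1 : WGood α A ({s} + n • {b {a}} + t)) :
    WGood α A ({b (n • {a})} + n • {s} + t) := by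
  induction n generalizing t with
  | zero =>
    simp only [zero_smul, add_zero] at h1 ⊢
    exact sim' hb.zero.symm h1
  | succ n ih =>
    have e1 : ({s} : Multiset K) + (n + 1) • {b {a}} + t
        = {s} + n • {b {a}} + ({b {a}} + t) := by
      rw [succ_nsmul]; abel
    rw [e1] at h1
    have h2 := ih (by omega) _ h1
    have e2 : ({b (n • {a})} : Multiset K) + n • {s} + ({b {a}} + t)
        = {b (n • {a})} + {b {a}} + (n • {s} + t) := by abel
    rw [e2] at h2
    have hmem : ∀ m : ℕ, ∀ x ∈ m • ({a} : Multiset K), W x := by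
      intro m x hx
      have : x = a := by simpa using Multiset.mem_of_mem_nsmul hx
      rwa [this]
    have h3 := merge' (z := b ((n + 1) • {a})) h (hb.weil (n • {a}) (hmem n) (by simp; omega))
      (hb.weil {a} (by simpa using ha) (by rw [Multiset.card_singleton]; exact hb.hN)) (by
        refine Sim.of_pow hb.hN ?_
        rw [mul_pow, mul_pow, hb.pow, hb.pow, hb.pow]
        simp only [Multiset.prod_nsmul, Multiset.prod_singleton, Multiset.card_nsmul,
          Multiset.card_singleton, mul_one]
        have e2 : a ^ n * s ^ (N - n) * (a * s ^ (N - 1))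
            = a ^ (n + 1) * s ^ ((N - n) + (N - 1)) := by
          rw [pow_add, pow_succ]; ring
        have e3 : a ^ (n + 1) * s ^ (N - (n + 1)) * s ^ N
            = a ^ (n + 1) * s ^ ((N - (n + 1)) + N) := by
          rw [pow_add s]; ring
        rw [e2, e3]
        have e4 : (N - n) + (N - 1) = (N - (n + 1)) + N := by omega
        rw [e4]
        exact Sim.refl _) h2
    have e3 : ({b ((n + 1) • {a})} : Multiset K) + {s} + (n • {s} + t)
        = {b ((n + 1) • {a})} + (n + 1) • {s} + t := by
      rw [succ_nsmul ({s} : Multiset K) n]; abel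
    rwa [e3] at h3

theorem mergeAll (h : Hyp α ω q s A W e e') (hb : Roots N s W b) (S : Multiset K)
    (hS : ∀ a ∈ S, W a) (t : Multiset K)
    (h1 : WGood α A ({s} + N • S.map (fun a => b {a}) + t)) :
    WGood α A ({s} + S + (Multiset.card S * (N - 1)) • {s} + t) := by
  induction S using Multiset.induction_on generalizing t with
  | empty => simpa using h1
  | cons a S ih =>
    have ha := hS a (Multiset.mem_cons_self a S)
    have e1 : ({s} : Multiset K) + N • Multiset.map (fun a => b {a}) (a ::ₘ S) + t
        = {s} + N • {b {a}} + (N • Multiset.map (fun a => b {a}) S + t) := by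
      rw [Multiset.map_cons, ← Multiset.singleton_add, smul_add]; abel
    rw [e1] at h1
    have h2 := mergeOne h hb a ha N le_rfl _ h1
    have h3 : Sim (b (N • {a})) a := by
      refine Sim.of_pow hb.hN ?_
      rw [hb.pow]
      simp only [Multiset.prod_nsmul, Multiset.prod_singleton, Multiset.card_nsmul,
        Multiset.card_singleton, mul_one, Nat.sub_self, pow_zero]
      exact Sim.refl (a ^ N)
    rw [add_assoc] at h2
    have h4 := sim' h3 h2
    have e2 : ({a} : Multiset K) + (N • {s} + (N • Multiset.map (fun a => b {a}) S + t))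
        = {s} + N • Multiset.map (fun a => b {a}) S + ({a} + (N - 1) • {s} + t) := by
      have : N • ({s} : Multiset K) = {s} + (N - 1) • {s} := by
        rw [← succ_nsmul', Nat.sub_add_cancel hb.hN]
      rw [this]; abel
    rw [e2] at h4
    have h5 := ih (fun x hx => hS x (Multiset.mem_cons_of_mem hx)) _ h4
    have e3 : ({s} : Multiset K) + S + (Multiset.card S * (N - 1)) • {s}
          + ({a} + (N - 1) • {s} + t)
        = {s} + (a ::ₘ S) + (Multiset.card (a ::ₘ S) * (N - 1)) • {s} + t := by
      rw [Multiset.card_cons, add_mul, add_smul, one_mul, ← Multiset.singleton_add]; abel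
    rwa [e3] at h5

/-- every word of Weil numbers of even length `2 k` with product `q ^ k` is good -/
theorem wgood_of_prod (h : Hyp α ω q s A W e e') (hb : Roots N s W b) (S : Multiset K)
    (hS : ∀ a ∈ S, W a) (hc : Multiset.card S ≤ N) {k : ℕ} (hk : Multiset.card S = 2 * k)
    (hprod : Sim S.prod ((q : K) ^ k)) : WGood α A S := by
  have hbS : Sim (b S) s := by
    refine Sim.of_pow hb.hN ?_
    rw [hb.pow]
    have : s ^ N = (q : K) ^ k * s ^ (N - Multiset.card S) := by
      rw [← h.hs, ← pow_mul, ← hk, ← pow_add]
      congr 1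
      omega
    rw [this]
    exact hprod.mul (Sim.refl _)
  have h1 : WGood α A ((N * Multiset.card S + 1) • {s} + {s}) := by
    have := inserts h (N * k + 1)
    have e1 : (2 * (N * k + 1)) • ({s} : Multiset K) = (N * Multiset.card S + 1) • {s} + {s} := by
      rw [← succ_nsmul, hk]
      congr 1
      ring
    rwa [e1] at this
  have h2 := insertN h hb S hS hc hbS N _ h1
  have h3 := mergeAll h hb S hS _ h2
  have e1 : ({s} : Multiset K) + S + (Multiset.card S * (N - 1)) • {s} + {s}
      = (2 * (k * (N - 1) + 1)) • {s} + S := by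
    have : 2 * (k * (N - 1) + 1) = Multiset.card S * (N - 1) + 1 + 1 := by rw [hk]; ring
    rw [this, add_smul, add_smul, one_smul]; abel
  rw [e1] at h3
  exact removes h _ h3

end

end Pool.Agent.H73.TateB
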