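import Mathlib

/-!
# Algebraic classes on products of curves over a finite field: definitions

`H` is the direct sum of the `H^1` of all curves over a finite field with `q` elements, with a
basis `e i` (`i : ι`) of eigenvectors of the Frobenius `F`, `F (e i) = a i • e i`, and `ω i j` is
the cup product pairing of `e i` and `e j`.
-/

namespace Pool.Agent.H73.TateB

/-- `x` is a Weil `q`-number (of weight one): an algebraic integer all of whose complex conjugates
have absolute value the square root of `q`. -/
def IsWeil (q : ℕ) {K : Type*} [Field K] [CharZero K] (x : K) : Prop :=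
  IsIntegral ℤ x ∧ ∀ z : ℂ, Polynomial.aeval z (minpoly ℚ x) = 0 → ‖z‖ ^ 2 = q

/-- The `n`-th tensor power of the space with basis `e i`, `i : ι`: finite linear combinations of
the tensors `e (v 0) ⊗ e (v 1) ⊗ …`, `v : Fin n → ι`. -/
abbrev Tens (K ι : Type*) [Field K] (n : ℕ) : Type _ := (Fin n → ι) →₀ K

section
variable {K ι : Type*} [Field K]

/-- The product `x ⊗ y`. -/
noncomputable def mul {m n : ℕ} (x : Tens K ι m) (y : Tens K ι n) : Tens K ι (m + n) :=
  x.sum fun v c => y.sum fun w d => Finsupp.single (Fin.append v w) (c * d)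

/-- Permutation of the factors. -/
noncomputable def permute {n : ℕ} (σ : Equiv.Perm (Fin n)) (x : Tens K ι n) : Tens K ι n :=
  x.sum fun v c => Finsupp.single (fun i => v (σ i)) c

/-- Contraction of the first two factors by the pairing `ω`. -/
noncomputable def contract (ω : ι → ι → K) {n : ℕ} (x : Tens K ι (n + 2)) : Tens K ι n :=
  x.sum fun v c => Finsupp.single (fun i => v i.succ.succ) (c * ω (v 0) (v 1))

/-- The family of subspaces `A n` of the tensor powers is closed under exterior products,
permutations of the factors and contraction of the first two factors. -/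
structure Closed (ω : ι → ι → K) (A : ∀ n, Submodule K (Tens K ι n)) : Prop where
  prod : ∀ m n, ∀ x ∈ A m, ∀ y ∈ A n, mul x y ∈ A (m + n)
  perm : ∀ n (σ : Equiv.Perm (Fin n)), ∀ x ∈ A n, permute σ x ∈ A n
  contr : ∀ n, ∀ x ∈ A (n + 2), contract ω x ∈ A n

/-- The endomorphism `F ⊗ … ⊗ F` of the `n`-th tensor power, where `F (e i) = a i • e i`. -/
noncomputable def frob (a : ι → K) {n : ℕ} (x : Tens K ι n) : Tens K ι n :=
  x.sum fun v c => Finsupp.single v ((∏ i, a (v i)) * c)

/-- `x` is a (geometric) Tate class of codimension `k`: for some `M > 0` the `M`-th iterate of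
`F ⊗ … ⊗ F` sends `x` to `q ^ (k M) x`. -/
def IsTate (a : ι → K) (q k : ℕ) {n : ℕ} (x : Tens K ι n) : Prop :=
  ∃ M : ℕ, 0 < M ∧ (frob a)^[M] x = (q : K) ^ (k * M) • x

end

/-- The standing situation: the `a i` are exactly the Weil `q`-numbers in `K`, the pairing `ω`
satisfies `ω(F x, F y) = q ω(x, y)` and pairs every `e i` non-trivially with some `e j`, and the
`e i`, `i ∈ E`, span a supersingular subspace on which `ω` is not zero. -/
structure Setting {K ι : Type*} [Field K] [CharZero K] (q : ℕ) (a : ι → K) (ω : ι → ι → K)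
    (E : Set ι) : Prop where
  pos : 0 < q
  weil : ∀ x : K, IsWeil q x ↔ ∃ i, a i = x
  pairing : ∀ i j, a i * a j * ω i j = q * ω i j
  nondeg : ∀ i, ∃ j, ω i j ≠ 0
  supersingular : ∀ i ∈ E, ∃ m : ℕ, 0 < m ∧ a i ^ (2 * m) = (q : K) ^ m
  nonzero : ∃ i ∈ E, ∃ j ∈ E, ω i j ≠ 0

end Pool.Agent.H73.TateB
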