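import Pool.Agent.H73.TateB.Chain

/-!
# From basis tensors to all Tate classes
-/

namespace Pool.Agent.H73.TateB

section
variable {K ι : Type*} [Field K] [IsAlgClosed K] [CharZero K]

theorem main (q : ℕ) (a : ι → K) (ω : ι → ι → K) (E : Set ι) (hset : Setting q a ω E)
    (A : ∀ n, Submodule K (Tens K ι n)) (hA : Closed ω A)
    (h4 : ∀ x : Tens K ι 4, (∀ v ∈ x.support, v 3 ∈ E) → IsTate a q 2 x → x ∈ A 4)
    (k : ℕ) (x : Tens K ι (2 * k)) (hx : IsTate a q k x) : x ∈ A (2 * k) := by
  classical
  obtain ⟨hq, hweil, hω, hnd, hE, hE2⟩ := hset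
  obtain ⟨s, hs⟩ := IsAlgClosed.exists_pow_nat_eq (q : K) (n := 2) (by norm_num)
  obtain ⟨e, he, e', he', hee'⟩ := hE2
  have hqK : (q : K) ≠ 0 := by exact_mod_cast hq.ne'
  have hs0 : s ≠ 0 := by
    rintro rfl
    rw [zero_pow two_ne_zero] at hs
    exact hqK hs.symm
  have htyE : ∀ y ∈ E, Ty a s y := by
    intro y hy
    obtain ⟨m, hm, hEm⟩ := hE y hy
    exact ⟨2 * m, by omega, by rw [hEm, pow_mul, hs]⟩
  have hyp : Hyp a ω q s A (IsWeil q) e e' :=
    { hs := hs
      hs0 := hs0
      closed := hA
      W0 := fun x hx => hx.ne_zero hq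
      ev := by
        intro x hx
        obtain ⟨i, rfl⟩ := (hweil x).mp hx
        obtain ⟨j, hj⟩ := hnd i
        have ha0 : a i ≠ 0 := hx.ne_zero hq
        refine ⟨i, j, Sim.refl _, ?_, hj⟩
        have h1 : a j = q / a i := by
          rw [eq_div_iff ha0, mul_comm]
          exact mul_right_cancel₀ hj (hω i j)
        rw [← h1]
        exact Sim.refl _
      te := htyE e he
      te' := htyE e' he'
      ee' := hee'
      four := by
        intro b c d f hf ht
        refine h4 _ ?_ ht
        intro v hv
        have hv' : v = ![b, c, d, f] := by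
          by_contra hne
          rw [Finsupp.mem_support_iff, Finsupp.single_apply, if_neg (Ne.symm hne)] at hv
          exact hv rfl
        rw [hv']
        rcases hf with rfl | rfl
        · exact he
        · exact he' }
  set N := 2 * k + 1 with hN
  have hNpos : 0 < N := by omega
  have hroot : ∀ S : Multiset K, ∃ b : K, b ^ N = S.prod * s ^ (N - Multiset.card S) :=
    fun S => IsAlgClosed.exists_pow_nat_eq _ hNpos
  choose b hb using hroot
  have hroots : Roots N s (IsWeil q) b :=
    { hN := hNpos
      pow := hb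
      weil := fun S hS hc => isWeil_root hs hNpos S hS hc (hb S) }
  obtain ⟨M, hM, hMx⟩ := hx
  have key : ∀ v ∈ x.support, Finsupp.single v (1 : K) ∈ A (2 * k) := by
    intro v hv
    have hv0 : x v ≠ 0 := Finsupp.mem_support_iff.mp hv
    have h1 : (∏ i, a (v i)) ^ M * x v = (q : K) ^ (k * M) * x v := by
      rw [← frob_iter_apply, hMx]
      rfl
    have hprod : Sim (∏ i, a (v i)) ((q : K) ^ k) := by
      refine ⟨M, hM, ?_⟩
      rw [← pow_mul]
      exact mul_right_cancel₀ hv0 h1
    set S : Multiset K := Multiset.map (fun i => a (v i)) Finset.univ.val with hS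
    have hcard : Multiset.card S = 2 * k := by simp [hS]
    have hgood := wgood_of_prod hyp hroots S (by
        intro y hy
        obtain ⟨i, _, rfl⟩ := Multiset.mem_map.mp hy
        exact (hweil _).mpr ⟨_, rfl⟩) (by omega) hcard (by
        have : S.prod = ∏ i, a (v i) := rfl
        rwa [this])
    have hrel : Multiset.Rel (Ty a) S (Multiset.map v Finset.univ.val) := by
      rw [hS, Multiset.rel_map]
      exact Multiset.rel_refl_of_refl_on (fun i _ => Sim.refl _)
    exact hgood _ hrel _ v rfl
  rw [← Finsupp.sum_single x]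
  refine Submodule.sum_mem _ fun v hv => ?_
  have h2 : Finsupp.single v (x v) = x v • Finsupp.single v (1 : K) := by
    rw [Finsupp.smul_single, smul_eq_mul, mul_one]
  rw [h2]
  exact Submodule.smul_mem _ _ (key v hv)

end

end Pool.Agent.H73.TateB
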