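import Pool.Agent.H73.TateB.Defs

/-!
# Basis tensors in a closed family, indexed by multisets
-/

namespace Pool.Agent.H73.TateB

theorem exists_perm_of_map_eq {α : Type*} {n : ℕ} (v w : Fin n → α)
    (h : Multiset.map v Finset.univ.val = Multiset.map w Finset.univ.val) :
    ∃ σ : Equiv.Perm (Fin n), v = w ∘ σ := by
  classical
  have hc : ∀ y, Nonempty ({i // v i = y} ≃ {i // w i = y}) := by
    intro y
    rw [← Fintype.card_eq, Fintype.card_subtype, Fintype.card_subtype]
    have := congrArg (Multiset.count y) h
    rw [Multiset.count_map, Multiset.count_map] at this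
    rw [Finset.card_def, Finset.card_def, Finset.filter_val, Finset.filter_val]
    simpa [eq_comm] using this
  let e : (Σ y, {i // v i = y}) ≃ (Σ y, {i // w i = y}) :=
    Equiv.sigmaCongrRight fun y => Classical.choice (hc y)
  let σ : Equiv.Perm (Fin n) :=
    (Equiv.sigmaFiberEquiv v).symm.trans (e.trans (Equiv.sigmaFiberEquiv w))
  refine ⟨σ, ?_⟩
  funext i
  have : w (σ i) = v i := ((Classical.choice (hc (v i))) ⟨i, rfl⟩).2
  exact this.symm

theorem exists_fin_map {α : Type*} (s : Multiset α) :
    ∃ (n : ℕ) (v : Fin n → α), Multiset.map v Finset.univ.val = s := by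
  refine ⟨s.toList.length, s.toList.get, ?_⟩
  rw [Fin.univ_val_map, List.ofFn_get, Multiset.coe_toList]

section
variable {K ι : Type*} [Field K]

theorem mul_single {m n : ℕ} (v : Fin m → ι) (w : Fin n → ι) :
    mul (Finsupp.single v (1 : K)) (Finsupp.single w 1) = Finsupp.single (Fin.append v w) 1 := by
  unfold mul
  rw [Finsupp.sum_single_index, Finsupp.sum_single_index, mul_one]
  · rw [mul_zero, Finsupp.single_zero]
  · simp only [zero_mul, Finsupp.single_zero]
    exact Finset.sum_const_zero

theorem permute_single {n : ℕ} (σ : Equiv.Perm (Fin n)) (v : Fin n → ι) :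
    permute σ (Finsupp.single v (1 : K)) = Finsupp.single (fun i => v (σ i)) 1 := by
  simp [permute]

theorem contract_single (ω : ι → ι → K) {n : ℕ} (i j : ι) (v : Fin n → ι) :
    contract ω (Finsupp.single (Fin.cons i (Fin.cons j v) : Fin (n + 2) → ι) (1 : K))
      = ω i j • Finsupp.single v 1 := by
  unfold contract
  rw [Finsupp.sum_single_index]
  · simp only [Fin.cons_succ, Fin.cons_zero, one_mul, Finsupp.smul_single, smul_eq_mul, mul_one]
    rfl
  · rw [zero_mul, Finsupp.single_zero]

theorem frob_apply (a : ι → K) {n : ℕ} (x : Tens K ι n) (v : Fin n → ι) :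
    frob a x v = (∏ i, a (v i)) * x v := by
  classical
  unfold frob
  rw [Finsupp.sum_apply]
  rw [Finsupp.sum, Finset.sum_eq_single v]
  · simp
  · intro w _ hw
    simp [Finsupp.single_apply, hw]
  · intro hv
    simp [Finsupp.notMem_support_iff.mp hv]

theorem frob_iter_apply (a : ι → K) {n : ℕ} (M : ℕ) (x : Tens K ι n) (v : Fin n → ι) :
    (frob a)^[M] x v = (∏ i, a (v i)) ^ M * x v := by
  induction M with
  | zero => simp
  | succ M ih => rw [Function.iterate_succ_apply', frob_apply, ih, pow_succ]; ring

/-- all basis tensors with the multiset `s` of factors lie in `A` -/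
def Good (A : ∀ n, Submodule K (Tens K ι n)) (s : Multiset ι) : Prop :=
  ∀ (n : ℕ) (v : Fin n → ι), Multiset.map v Finset.univ.val = s →
    Finsupp.single v (1 : K) ∈ A n

variable {ω : ι → ι → K} {A : ∀ n, Submodule K (Tens K ι n)}

theorem good_of (hA : Closed ω A) {n : ℕ} (v : Fin n → ι)
    (h : Finsupp.single v (1 : K) ∈ A n) : Good A (Multiset.map v Finset.univ.val) := by
  intro m w hw
  have hmn : m = n := by
    have := congrArg Multiset.card hw
    simpa using this
  subst hmn
  obtain ⟨σ, rfl⟩ := exists_perm_of_map_eq w v hw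
  have := hA.perm m σ _ h
  rwa [permute_single] at this

theorem Good.add (hA : Closed ω A) {s t : Multiset ι} (hs : Good A s) (ht : Good A t) :
    Good A (s + t) := by
  obtain ⟨m, v, rfl⟩ := exists_fin_map s
  obtain ⟨n, w, rfl⟩ := exists_fin_map t
  have h := hA.prod m n _ (hs m v rfl) _ (ht n w rfl)
  rw [mul_single] at h
  have h2 := good_of hA _ h
  have h3 : Multiset.map (Fin.append v w) Finset.univ.val
      = Multiset.map v Finset.univ.val + Multiset.map w Finset.univ.val := by
    simp only [Fin.univ_val_map, List.ofFn_fin_append, Multiset.coe_add]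
  rwa [h3] at h2

theorem Good.contract (hA : Closed ω A) {i j : ι} {s : Multiset ι} (hab : ω i j ≠ 0)
    (h : Good A (i ::ₘ j ::ₘ s)) : Good A s := by
  obtain ⟨n, v, rfl⟩ := exists_fin_map s
  have h1 := h (n + 2) (Fin.cons i (Fin.cons j v)) (by
    simp only [Fin.univ_val_map, List.ofFn_cons, Multiset.cons_coe])
  have h2 := hA.contr n _ h1
  rw [contract_single] at h2
  exact good_of hA v (((A n).smul_mem_iff hab).mp h2)

end

end Pool.Agent.H73.TateB
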