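import Pool.Agent.H73.TateB.Defs

/-!
# Roots of products of Weil numbers are Weil numbers
-/

namespace Pool.Agent.H73.TateB

section
variable {K : Type*} [Field K] [CharZero K]

theorem IsWeil.ne_zero {q : ℕ} (hq : 0 < q) {a : K} (h : IsWeil q a) : a ≠ 0 := by
  rintro rfl
  have := h.2 0 (by rw [minpoly.zero]; simp)
  simp at this
  exact hq.ne' (by exact_mod_cast this.symm)

/-- the absolute values of the embeddings of a Weil number -/
theorem IsWeil.emb {q : ℕ} (a : algebraicClosure ℚ K)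
    (h : IsWeil q (a : K)) (φ : algebraicClosure ℚ K →+* ℂ) : ‖φ a‖ ^ 2 = q := by
  apply h.2
  set P := minpoly ℚ (a : K) with hP
  let i : ℚ →+* algebraicClosure ℚ K := algebraMap ℚ _
  have h1 : Polynomial.eval₂ i a P = 0 := by
    apply (algebraicClosure ℚ K).val.injective
    have h2 : Polynomial.eval₂ (algebraMap ℚ K) (a : K) P = 0 := minpoly.aeval ℚ (a : K)
    have h3 := Polynomial.hom_eval₂ P i ((algebraicClosure ℚ K).val : _ →+* K) a
    have h4 : (((algebraicClosure ℚ K).val : _ →+* K)).comp i = algebraMap ℚ K :=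
      RingHom.ext_rat _ _
    rw [h4] at h3
    rw [map_zero]
    exact h3.trans h2
  have h5 := Polynomial.hom_eval₂ P i φ a
  rw [h1, map_zero, RingHom.ext_rat (φ.comp i) (algebraMap ℚ ℂ)] at h5
  exact h5.symm

theorem IsWeil.mem {q : ℕ} {a : K} (h : IsWeil q a) : a ∈ algebraicClosure ℚ K := by
  rw [mem_algebraicClosure_iff]
  exact (h.1.tower_top (A := ℚ)).isAlgebraic

/-- every root of the minimal polynomial is the image under an embedding -/
theorem exists_emb {x : K} (hx : x ∈ algebraicClosure ℚ K) {z : ℂ}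
    (hz : Polynomial.aeval z (minpoly ℚ x) = 0) :
    ∃ φ : algebraicClosure ℚ K →+* ℂ, φ ⟨x, hx⟩ = z := by
  let _ : Algebra ℚ (algebraicClosure ℚ K) := (algebraicClosure ℚ K).algebra'
  have halg : Algebra.IsAlgebraic ℚ (algebraicClosure ℚ K) := algebraicClosure.isAlgebraic ℚ K
  have hint : IsIntegral ℚ x := (mem_algebraicClosure_iff.mp hx).isIntegral
  have hmp : minpoly ℚ (⟨x, hx⟩ : algebraicClosure ℚ K) = minpoly ℚ x :=
    IntermediateField.minpoly_eq (S := algebraicClosure ℚ K) ⟨x, hx⟩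
  have hz' : z ∈ (minpoly ℚ (⟨x, hx⟩ : algebraicClosure ℚ K)).rootSet ℂ := by
    rw [Polynomial.mem_rootSet, hmp]
    exact ⟨minpoly.ne_zero hint, hz⟩
  rw [← Algebra.IsAlgebraic.range_eval_eq_rootSet_minpoly ℂ] at hz'
  obtain ⟨φ, hφ⟩ := hz'
  exact ⟨φ, hφ⟩

theorem prod_emb {q : ℕ} (S : Multiset K) (hS : ∀ a ∈ S, IsWeil q a)
    (φ : algebraicClosure ℚ K →+* ℂ) :
    ∃ y : algebraicClosure ℚ K, (y : K) = S.prod ∧ ‖φ y‖ ^ 2 = (q : ℝ) ^ (Multiset.card S) := by
  induction S using Multiset.induction_on with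
  | empty => exact ⟨1, by simp, by simp⟩
  | cons a S ih =>
    obtain ⟨y, hy1, hy2⟩ := ih (fun b hb => hS b (Multiset.mem_cons_of_mem hb))
    have ha := hS a (Multiset.mem_cons_self a S)
    refine ⟨⟨a, ha.mem⟩ * y, by simp [hy1], ?_⟩
    rw [map_mul, norm_mul, mul_pow, ha.emb ⟨a, ha.mem⟩ φ, hy2, Multiset.card_cons, pow_succ']

theorem isWeil_of_sq {q : ℕ} {s : K} (hs : s ^ 2 = q) : IsWeil q s := by
  have hq : IsIntegral ℤ (q : K) := by
    have h : IsIntegral ℤ (algebraMap ℤ K (q : ℤ)) := isIntegral_algebraMap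
    simpa using h
  have hsi : IsIntegral ℤ s := IsIntegral.of_pow (n := 2) (by norm_num) (by rw [hs]; exact hq)
  refine ⟨hsi, ?_⟩
  intro z hz
  have hsL : s ∈ algebraicClosure ℚ K := by
    rw [mem_algebraicClosure_iff]
    exact (hsi.tower_top (A := ℚ)).isAlgebraic
  obtain ⟨φ, hφ⟩ := exists_emb hsL hz
  have h1 : (⟨s, hsL⟩ : algebraicClosure ℚ K) ^ 2 = (q : algebraicClosure ℚ K) := by
    apply Subtype.ext
    simpa using hs
  have h2 : z ^ 2 = (q : ℂ) := by
    rw [← hφ, ← map_pow, h1, map_natCast]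
  have h3 : ‖z ^ 2‖ = (q : ℝ) := by rw [h2]; simp
  rwa [norm_pow] at h3

/-- `N`-th roots of `a₁ ⋯ a_c s^(N - c)` are Weil numbers (`s` a square root of `q`) -/
theorem isWeil_root {q : ℕ} {s : K} (hs : s ^ 2 = q) {N : ℕ} (hN : 0 < N) (S : Multiset K)
    (hS : ∀ a ∈ S, IsWeil q a) (hc : Multiset.card S ≤ N) {x : K}
    (hx : x ^ N = S.prod * s ^ (N - Multiset.card S)) : IsWeil q x := by
  have hsW : IsWeil q s := isWeil_of_sq hs
  have hxi : IsIntegral ℤ x := by
    refine IsIntegral.of_pow hN ?_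
    rw [hx]
    exact (IsIntegral.multiset_prod (fun a ha => (hS a ha).1)).mul (hsW.1.pow _)
  have hxL : x ∈ algebraicClosure ℚ K := by
    rw [mem_algebraicClosure_iff]
    exact (hxi.tower_top (A := ℚ)).isAlgebraic
  refine ⟨hxi, fun z hz => ?_⟩
  obtain ⟨φ, hφ⟩ := exists_emb hxL hz
  obtain ⟨y, hy1, hy2⟩ := prod_emb S hS φ
  have hpow : (⟨x, hxL⟩ : algebraicClosure ℚ K) ^ N = y * ⟨s, hsW.mem⟩ ^ (N - Multiset.card S) := by
    apply Subtype.ext
    simpa [hy1] using hx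
  have h1 : (‖z‖ ^ 2) ^ N = (q : ℝ) ^ N := by
    have e1 := congrArg (fun t => ‖φ t‖ ^ 2) hpow
    simp only [map_pow, map_mul, norm_pow, norm_mul, hφ] at e1
    rw [mul_pow, hy2, ← pow_mul, ← pow_mul, mul_comm N 2, mul_comm (N - Multiset.card S) 2,
      pow_mul, pow_mul, hsW.emb ⟨s, hsW.mem⟩ φ, ← pow_add] at e1
    rw [e1]
    congr 1
    omega
  exact (pow_left_inj₀ (by positivity) (by positivity) hN.ne').mp h1

end

end Pool.Agent.H73.TateB
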