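import Pool.Agent.H73.TateB.Good
import Pool.Agent.H73.TateB.Weil

/-!
# Words of Weil numbers and the moves
-/

namespace Pool.Agent.H73.TateB


section Sim
variable {K : Type*} [Field K]

/-- equality up to a root of unity -/
def Sim (x y : K) : Prop := ∃ M : ℕ, 0 < M ∧ x ^ M = y ^ M

theorem Sim.refl (x : K) : Sim x x := ⟨1, one_pos, rfl⟩

theorem Sim.symm {x y : K} (h : Sim x y) : Sim y x := by
  obtain ⟨M, h1, h2⟩ := h
  exact ⟨M, h1, h2.symm⟩

theorem Sim.trans {x y z : K} (h : Sim x y) (h' : Sim y z) : Sim x z := by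
  obtain ⟨M, h1, h2⟩ := h
  obtain ⟨M', h1', h2'⟩ := h'
  refine ⟨M * M', Nat.mul_pos h1 h1', ?_⟩
  rw [pow_mul, h2, ← pow_mul, mul_comm M M', pow_mul, h2', ← pow_mul]

theorem Sim.mul {x y x' y' : K} (h : Sim x y) (h' : Sim x' y') : Sim (x * x') (y * y') := by
  obtain ⟨M, h1, h2⟩ := h
  obtain ⟨M', h1', h2'⟩ := h'
  refine ⟨M * M', Nat.mul_pos h1 h1', ?_⟩
  rw [mul_pow, mul_pow, pow_mul, h2, ← pow_mul, mul_comm M M', pow_mul x', h2', ← pow_mul]

theorem Sim.pow {x y : K} (h : Sim x y) (n : ℕ) : Sim (x ^ n) (y ^ n) := by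
  obtain ⟨M, h1, h2⟩ := h
  exact ⟨M, h1, by rw [← pow_mul, mul_comm, pow_mul, h2, ← pow_mul, mul_comm, pow_mul]⟩

theorem Sim.of_pow {x y : K} {N : ℕ} (hN : 0 < N) (h : Sim (x ^ N) (y ^ N)) : Sim x y := by
  obtain ⟨M, h1, h2⟩ := h
  exact ⟨N * M, Nat.mul_pos hN h1, by rw [pow_mul, pow_mul, h2]⟩

end Sim

section
variable {K ι : Type*} [Field K]

/-- the index `i` has type `x`: `a i = x` up to a root of unity -/
def Ty (a : ι → K) (x : K) (i : ι) : Prop := Sim (a i) x

theorem Ty.sim {a : ι → K} {x y : K} {i : ι} (h : Ty a x i) (hxy : Sim x y) : Ty a y i :=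
  h.trans hxy

theorem sim_prod {n : ℕ} (f g : Fin n → K) (h : ∀ i, Sim (f i) (g i)) :
    Sim (∏ i, f i) (∏ i, g i) := by
  classical
  have : ∀ S : Finset (Fin n), Sim (∏ i ∈ S, f i) (∏ i ∈ S, g i) := by
    intro S
    induction S using Finset.induction_on with
    | empty => simpa using Sim.refl (1 : K)
    | insert i S hi ih => rw [Finset.prod_insert hi, Finset.prod_insert hi]; exact (h i).mul ih
  exact this _

/-- a basis tensor with factors of types `x i` is a Tate class if the product of the `x i` is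
`q ^ k` up to a root of unity -/
theorem isTate_single {a : ι → K} {q k n : ℕ} (v : Fin n → ι) (x : Fin n → K)
    (hv : ∀ i, Ty a (x i) (v i)) (hx : Sim (∏ i, x i) ((q : K) ^ k)) :
    IsTate a q k (Finsupp.single v (1 : K)) := by
  obtain ⟨M, hM, h⟩ := (sim_prod _ _ hv).trans hx
  refine ⟨M, hM, ?_⟩
  ext w
  rw [frob_iter_apply]
  by_cases hw : w = v
  · subst hw
    simp [h, pow_mul]
  · simp [Finsupp.single_apply, Ne.symm hw]

/-- the standing hypotheses, in the form used in the proof -/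
structure Hyp (α : ι → K) (ω : ι → ι → K) (q : ℕ) (s : K)
    (A : ∀ n, Submodule K (Tens K ι n)) (W : K → Prop) (e e' : ι) : Prop where
  hs : s ^ 2 = q
  hs0 : s ≠ 0
  closed : Closed ω A
  W0 : ∀ x, W x → x ≠ 0
  ev : ∀ x, W x → ∃ v w, Ty α x v ∧ Ty α (q / x) w ∧ ω v w ≠ 0
  te : Ty α s e
  te' : Ty α s e'
  ee' : ω e e' ≠ 0
  four : ∀ a b c d, (d = e ∨ d = e') →
    IsTate α q 2 (Finsupp.single ![a, b, c, d] (1 : K)) →
    Finsupp.single ![a, b, c, d] (1 : K) ∈ A 4

variable {α : ι → K} {ω : ι → ι → K} {q : ℕ} {s : K}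
  {A : ∀ n, Submodule K (Tens K ι n)} {W : K → Prop} {e e' : ι}

theorem Hyp.good4 (h : Hyp α ω q s A W e e') {x y z : K} {a b c d : ι} (ha : Ty α x a)
    (hb : Ty α y b) (hc : Ty α z c) (hd : d = e ∨ d = e')
    (hx : Sim (x * y * z * s) ((q : K) ^ 2)) : Good A ({a, b, c, d} : Multiset ι) := by
  have hd' : Ty α s d := by
    rcases hd with rfl | rfl
    · exact h.te
    · exact h.te'
  have h1 : IsTate α q 2 (Finsupp.single ![a, b, c, d] (1 : K)) := by
    apply isTate_single _ ![x, y, z, s]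
    · intro i
      fin_cases i
      · exact ha
      · exact hb
      · exact hc
      · exact hd'
    · simpa [Fin.prod_univ_four] using hx
  have h2 := good_of h.closed _ (h.four a b c d hd h1)
  have h3 : Multiset.map ![a, b, c, d] Finset.univ.val = ({a, b, c, d} : Multiset ι) := by
    rw [Fin.univ_val_map]
    simp [List.ofFn_succ]
    rfl
  rwa [h3] at h2

theorem Hyp.good2 (h : Hyp α ω q s A W e e') {x y : K} {a b : ι} (ha : Ty α x a)
    (hb : Ty α y b) (hx : Sim (x * y) q) : Good A ({a, b} : Multiset ι) := by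
  have h1 := h.good4 ha hb h.te (Or.inr rfl) (by
    have : (q : K) ^ 2 = q * (s * s) := by rw [← sq s, h.hs]; ring
    rw [this, mul_assoc (x * y)]
    exact hx.mul (Sim.refl _))
  have h2 : ({a, b, e, e'} : Multiset ι) = e ::ₘ e' ::ₘ {a, b} := by
    simp only [Multiset.insert_eq_cons]
    rw [Multiset.cons_swap b e, Multiset.cons_swap a e]
    congr 1
    rw [← Multiset.cons_zero e', Multiset.cons_swap b e', Multiset.cons_swap a e']
    rfl
  rw [h2] at h1
  exact h1.contract h.closed h.ee'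

/-- all tensor products of vectors whose types are the letters of the word are algebraic -/
def WGood (α : ι → K) (A : ∀ n, Submodule K (Tens K ι n)) (w : Multiset K) : Prop :=
  ∀ t : Multiset ι, Multiset.Rel (Ty α) w t → Good A t

theorem WGood.add (h : Hyp α ω q s A W e e') {w w' : Multiset K} (h1 : WGood α A w)
    (h2 : WGood α A w') : WGood α A (w + w') := by
  intro t ht
  obtain ⟨t1, t2, h3, h4, rfl⟩ := Multiset.rel_add_left.mp ht
  exact (h1 t1 h3).add h.closed (h2 t2 h4)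

theorem WGood.sim {x y : K} {w : Multiset K} (h1 : WGood α A (x ::ₘ w)) (hxy : Sim x y) :
    WGood α A (y ::ₘ w) := by
  intro t ht
  obtain ⟨b, t', h2, h3, rfl⟩ := Multiset.rel_cons_left.mp ht
  exact h1 _ (Multiset.rel_cons_left.mpr ⟨b, t', h2.sim hxy.symm, h3, rfl⟩)

/-- splitting: `(z, s) → (x, y)` if `x y = z s` up to a root of unity -/
theorem WGood.split (h : Hyp α ω q s A W e e') {x y z : K} (hz : W z) {w : Multiset K}
    (hxy : Sim (x * y) (z * s)) (h1 : WGood α A (z ::ₘ s ::ₘ w)) :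
    WGood α A (x ::ₘ y ::ₘ w) := by
  intro t ht
  obtain ⟨a, t1, ha, ht1, rfl⟩ := Multiset.rel_cons_left.mp ht
  obtain ⟨b, R, hb, hR, rfl⟩ := Multiset.rel_cons_left.mp ht1
  obtain ⟨v, v', hv, hv', hvv⟩ := h.ev z hz
  have h2 : Good A (v ::ₘ e ::ₘ R) := h1 _ (Multiset.rel_cons_left.mpr ⟨v, _, hv,
    Multiset.rel_cons_left.mpr ⟨e, _, h.te, hR, rfl⟩, rfl⟩)
  have h3 : Good A ({a, b, v', e'} : Multiset ι) := by
    refine h.good4 ha hb hv' (Or.inr rfl) ?_
    have hz0 := h.W0 z hz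
    have e1 : (q : K) ^ 2 = z * s * (q / z * s) := by
      rw [← h.hs]; field_simp
    rw [e1, mul_assoc (x * y)]
    exact hxy.mul (Sim.refl _)
  have h4 := h3.add h.closed h2
  have h5 : ({a, b, v', e'} : Multiset ι) + (v ::ₘ e ::ₘ R)
      = v ::ₘ v' ::ₘ (e ::ₘ e' ::ₘ (a ::ₘ b ::ₘ R)) := by
    simp only [Multiset.insert_eq_cons, ← Multiset.singleton_add]
    abel
  rw [h5] at h4
  exact (h4.contract h.closed hvv).contract h.closed h.ee'

/-- merging: `(x, y) → (z, s)` if `x y = z s` up to a root of unity -/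
theorem WGood.merge (h : Hyp α ω q s A W e e') {x y z : K} (hx : W x) (hy : W y)
    {w : Multiset K} (hxy : Sim (x * y) (z * s)) (h1 : WGood α A (x ::ₘ y ::ₘ w)) :
    WGood α A (z ::ₘ s ::ₘ w) := by
  intro t ht
  obtain ⟨u, t1, hu, ht1, rfl⟩ := Multiset.rel_cons_left.mp ht
  obtain ⟨b, R, hb, hR, rfl⟩ := Multiset.rel_cons_left.mp ht1
  obtain ⟨v, v', hv, hv', hvv⟩ := h.ev x hx
  obtain ⟨r, r', hr, hr', hrr⟩ := h.ev y hy
  have h2 : Good A (v ::ₘ r ::ₘ R) := h1 _ (Multiset.rel_cons_left.mpr ⟨v, _, hv,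
    Multiset.rel_cons_left.mpr ⟨r, _, hr, hR, rfl⟩, rfl⟩)
  have h3 : Good A ({v', r', u, e} : Multiset ι) := by
    refine h.good4 hv' hr' hu (Or.inl rfl) ?_
    have hx0 := h.W0 x hx
    have hy0 := h.W0 y hy
    have e1 : (q : K) ^ 2 = (q / x) * (q / y) * (x * y) := by
      field_simp
    rw [e1, mul_assoc ((q / x : K) * (q / y))]
    exact (Sim.refl _).mul hxy.symm
  have h4 := h3.add h.closed h2
  have h5 : ({v', r', u, e} : Multiset ι) + (v ::ₘ r ::ₘ R)
      = v ::ₘ v' ::ₘ (r ::ₘ r' ::ₘ (u ::ₘ e ::ₘ R)) := by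
    simp only [Multiset.insert_eq_cons, ← Multiset.singleton_add]
    abel
  rw [h5] at h4
  have h6 : Good A (u ::ₘ e ::ₘ R) := (h4.contract h.closed hvv).contract h.closed hrr
  have h7 : Good A ({b, e'} : Multiset ι) := h.good2 hb h.te' (by
    rw [← sq, h.hs]; exact Sim.refl _)
  have h8 := h7.add h.closed h6
  have h9 : ({b, e'} : Multiset ι) + (u ::ₘ e ::ₘ R) = e ::ₘ e' ::ₘ (u ::ₘ b ::ₘ R) := by
    simp only [Multiset.insert_eq_cons, ← Multiset.singleton_add]
    abel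
  rw [h9] at h8
  exact h8.contract h.closed h.ee'

/-- pairs of letters `s` can be removed -/
theorem WGood.remove (h : Hyp α ω q s A W e e') {w : Multiset K}
    (h1 : WGood α A (s ::ₘ s ::ₘ w)) : WGood α A w := by
  intro R hR
  have h2 : Good A (e ::ₘ e ::ₘ R) := h1 _ (Multiset.rel_cons_left.mpr ⟨e, _, h.te,
    Multiset.rel_cons_left.mpr ⟨e, _, h.te, hR, rfl⟩, rfl⟩)
  have h3 : Good A ({e', e'} : Multiset ι) := h.good2 h.te' h.te' (by
    rw [← sq, h.hs]; exact Sim.refl _)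
  have h4 := h3.add h.closed h2
  have h5 : ({e', e'} : Multiset ι) + (e ::ₘ e ::ₘ R) = e ::ₘ e' ::ₘ (e ::ₘ e' ::ₘ R) := by
    simp only [Multiset.insert_eq_cons, ← Multiset.singleton_add]
    abel
  rw [h5] at h4
  exact (h4.contract h.closed h.ee').contract h.closed h.ee'

/-- pairs of letters `s` can be added -/
theorem WGood.insert (h : Hyp α ω q s A W e e') {w : Multiset K}
    (h1 : WGood α A w) : WGood α A (s ::ₘ s ::ₘ w) := by
  intro t ht
  obtain ⟨a, t1, ha, ht1, rfl⟩ := Multiset.rel_cons_left.mp ht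
  obtain ⟨b, R, hb, hR, rfl⟩ := Multiset.rel_cons_left.mp ht1
  have h3 : Good A ({a, b} : Multiset ι) := h.good2 ha hb (by
    rw [← sq, h.hs]; exact Sim.refl _)
  have h4 := h3.add h.closed (h1 R hR)
  have h5 : ({a, b} : Multiset ι) + R = a ::ₘ b ::ₘ R := by
    simp only [Multiset.insert_eq_cons, ← Multiset.singleton_add]
    abel
  rwa [h5] at h4

end

end Pool.Agent.H73.TateB
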